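import Pool.Agent.Y380.KP.Main

set_option autoImplicit false

namespace Pool.Agent.Results.MP_ff3a4f_co.PositiveFraction

/-- some hyperplane has `P` in one of its open half-spaces and `Q` in the other -/
def Separated {d : ℕ} (P Q : Set (EuclideanSpace ℝ (Fin d))) : Prop :=
  ∃ (u : EuclideanSpace ℝ (Fin d)) (c : ℝ), u ≠ 0 ∧
    (∀ x ∈ P, c < inner ℝ u x) ∧ ∀ y ∈ Q, inner ℝ u y < c

/-- For every `d ≥ 1` there is `g` with `g ε → 0` as `ε → 0` (one may take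
`g ε = 2 (d + 2)² ε^(1/(d+1))`) such that for all disjoint `A, B` with `N` points each: if at least
`(1 - ε) C(2 N, d + 2)` of the `(d + 2)`-subsets `S` of `A ∪ B` are good then some `A' ⊆ A` and
`B' ⊆ B` with at least `(1 - g ε) N` points each are separated by a hyperplane. -/
theorem result (d : ℕ) (hd : 1 ≤ d) :
    ∃ g : ℝ → ℝ, Filter.Tendsto g (nhdsWithin 0 (Set.Ioi 0)) (nhds 0) ∧
      (∀ ε, g ε = 2 * ((d : ℝ) + 2) ^ 2 * ε ^ ((1 : ℝ) / (d + 1))) ∧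
      ∀ (ε : ℝ), 0 ≤ ε → ∀ (N : ℕ) (A B : Finset (EuclideanSpace ℝ (Fin d))),
        Disjoint A B → A.card = N → B.card = N →
        (d + 2 ≤ 2 * N ∨ AffineIndependent ℝ (Subtype.val :
          ↥((A : Set (EuclideanSpace ℝ (Fin d))) ∪ (B : Set (EuclideanSpace ℝ (Fin d)))) →
            EuclideanSpace ℝ (Fin d))) →
        (1 - ε) * ((2 * N).choose (d + 2) : ℝ) ≤
          (Nat.card {S : Finset (EuclideanSpace ℝ (Fin d)) //
            (S : Set (EuclideanSpace ℝ (Fin d))) ⊆ (A : Set (EuclideanSpace ℝ (Fin d))) ∪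
              (B : Set (EuclideanSpace ℝ (Fin d))) ∧
            S.card = d + 2 ∧ Separated (d := d) (↑A ∩ ↑S) (↑B ∩ ↑S)} : ℝ) →
        ∃ A' ⊆ A, ∃ B' ⊆ B, Separated (d := d) ↑A' ↑B' ∧
          (1 - g ε) * N ≤ (A'.card : ℝ) ∧ (1 - g ε) * N ≤ (B'.card : ℝ) := by
  refine ⟨fun ε => 2 * ((d : ℝ) + 2) ^ 2 * ε ^ ((1 : ℝ) / (d + 1)),
    Pool.Agent.Y380.KP.tendsto_bound d, fun ε => rfl, ?_⟩
  intro ε hε N A B hAB hA hB hN hgood
  exact Pool.Agent.Y380.KP.main hd ε hε N A B hAB hA hB hN hgood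

end Pool.Agent.Results.MP_ff3a4f_co.PositiveFraction
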